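import Mathlib

/-!
Project EN, part CHB: products of trigonometric polynomials at vectors whose characteristic function is nearly Gaussian.
-/

set_option autoImplicit false

namespace Pool.Agent.P8H78.EN

open Finset MeasureTheory Filter Topology ProbabilityTheory Complex

theorem expand_prod (K N : ℕ) (b : Fin N → ℂ) (q : Fin N → ℝ) (H : ℝ → ℝ)
    (hH : ∀ x, (H x : ℂ) = ∑ m, b m * cexp (I * ((q m * x : ℝ) : ℂ))) (y v : Fin K → ℝ) :
    ((∏ i, H (y i - v i) : ℝ) : ℂ) = ∑ m : Fin K → Fin N,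
      (∏ i, (b (m i) * cexp (-(I * ((q (m i) * v i : ℝ) : ℂ))))) * cexp (I * ((∑ i, q (m i) * y i : ℝ) : ℂ)) := by
  rw [Complex.ofReal_prod]
  simp_rw [hH]
  rw [Finset.prod_univ_sum, Fintype.piFinset_univ]
  apply Finset.sum_congr rfl
  intro m _
  rw [Complex.ofReal_sum, Finset.mul_sum, Complex.exp_sum, ← Finset.prod_mul_distrib]
  apply Finset.prod_congr rfl
  intro i _
  rw [mul_assoc, ← Complex.exp_add]
  congr 2
  push_cast
  ring

theorem sum_prod_norm (K N : ℕ) (c : Fin N → ℂ) :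
    ∑ m : Fin K → Fin N, ∏ i, ‖c (m i)‖ = (∑ m, ‖c m‖) ^ K := by
  have h := Finset.prod_univ_sum (fun _ : Fin K => (univ : Finset (Fin N))) (fun _ j => ‖c j‖)
  rw [Fintype.piFinset_univ, Finset.prod_const, Finset.card_univ, Fintype.card_fin] at h
  exact h.symm

theorem gauss_char (K : ℕ) (S : Matrix (Fin K) (Fin K) ℝ) (hS : S.PosSemidef) (w : Fin K → ℝ) :
    ∫ x, cexp (I * ((∑ i, w i * x i : ℝ) : ℂ)) ∂(multivariateGaussian (0 : EuclideanSpace ℝ (Fin K)) S) =
      cexp ((-(∑ i, ∑ k, w i * S i k * w k) / 2 : ℝ) : ℂ) := by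
  have h := charFun_multivariateGaussian (μ := (0 : EuclideanSpace ℝ (Fin K))) hS (WithLp.toLp 2 w)
  rw [charFun_apply] at h
  have h1 : ∀ x : EuclideanSpace ℝ (Fin K), cexp (I * ((∑ i, w i * x i : ℝ) : ℂ)) =
      cexp (((inner ℝ x (WithLp.toLp 2 w) : ℝ) : ℂ) * I) := by
    intro x
    congr 1
    rw [PiLp.inner_apply, mul_comm]
    congr 2
  simp_rw [h1]
  rw [h]
  congr 1
  rw [inner_zero_right]
  have h2 : (w ⬝ᵥ S.mulVec w) = ∑ i, ∑ k, w i * S i k * w k := by
    simp only [dotProduct, Matrix.mulVec, Finset.mul_sum]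
    apply Finset.sum_congr rfl
    intro i _
    apply Finset.sum_congr rfl
    intro k _
    ring
  have h3 : ((WithLp.toLp 2 w : EuclideanSpace ℝ (Fin K)).ofLp ⬝ᵥ S.mulVec (WithLp.toLp 2 w : EuclideanSpace ℝ (Fin K)).ofLp) =
      ∑ i, ∑ k, w i * S i k * w k := h2
  rw [h3]
  push_cast
  ring

theorem chb_core (K N : ℕ) (c : Fin N → ℂ) (q : Fin N → ℝ) (F G : ℝ → ℝ) (σ Q err T : ℝ)
    (Y : ℝ → Fin K → ℝ) (S : Matrix (Fin K) (Fin K) ℝ) (hT : 0 < T) (herr : 0 ≤ err) (hY : Continuous Y)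
    (hF : ∀ x, (F x : ℂ) = ∑ m, c m * cexp (I * ((q m * x : ℝ) : ℂ)))
    (hG : ∀ x, (G x : ℂ) = ∑ m, c m * ((Real.exp (-(σ ^ 2 * q m ^ 2) / 2) : ℝ) : ℂ) *
      cexp (I * ((q m * x : ℝ) : ℂ))) (hQ : ∀ x, |G x| ≤ Q)
    (hS : (S - σ ^ 2 • (1 : Matrix (Fin K) (Fin K) ℝ)).PosSemidef)
    (hch : ∀ m : Fin K → Fin N, ‖((1 / T : ℝ) : ℂ) * (∫ t in T..(2 * T),
        cexp (I * ((∑ i, q (m i) * Y t i : ℝ) : ℂ))) -
        cexp ((-(∑ i, ∑ k, q (m i) * S i k * q (m k)) / 2 : ℝ) : ℂ)‖ ≤ err) (v : Fin K → ℝ) :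
    1 / T * (∫ t in T..(2 * T), ∏ i, F (Y t i - v i)) ≤ Q ^ K + (∑ m, ‖c m‖) ^ K * err := by
  set a : (Fin K → Fin N) → ℂ := fun m => ∏ i, (c (m i) * cexp (-(I * ((q (m i) * v i : ℝ) : ℂ)))) with ha
  have hanorm : ∀ m, ‖a m‖ = ∏ i, ‖c (m i)‖ := by
    intro m
    simp only [ha]
    rw [norm_prod]
    apply Finset.prod_congr rfl
    intro i _
    rw [norm_mul]
    have : ‖cexp (-(I * ((q (m i) * v i : ℝ) : ℂ)))‖ = 1 := by
      have h : -(I * ((q (m i) * v i : ℝ) : ℂ)) = ((-(q (m i) * v i) : ℝ) : ℂ) * I := by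
        push_cast
        ring
      rw [h, Complex.norm_exp_ofReal_mul_I]
    rw [this, mul_one]
  -- the mean value of the product
  have hcont : ∀ m : Fin K → Fin N, Continuous (fun t => cexp (I * ((∑ i, q (m i) * Y t i : ℝ) : ℂ))) := by
    intro m
    apply Complex.continuous_exp.comp
    apply continuous_const.mul
    apply Complex.continuous_ofReal.comp
    apply continuous_finsetSum
    intro i _
    exact continuous_const.mul ((continuous_apply i).comp hY)
  have e1 : ((1 / T * (∫ t in T..(2 * T), ∏ i, F (Y t i - v i)) : ℝ) : ℂ) =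
      ∑ m, a m * (((1 / T : ℝ) : ℂ) * (∫ t in T..(2 * T), cexp (I * ((∑ i, q (m i) * Y t i : ℝ) : ℂ)))) := by
    rw [Complex.ofReal_mul, ← intervalIntegral.integral_ofReal]
    have h1 : ∀ t, ((∏ i, F (Y t i - v i) : ℝ) : ℂ) = ∑ m, a m * cexp (I * ((∑ i, q (m i) * Y t i : ℝ) : ℂ)) :=
      fun t => expand_prod K N c q F hF (Y t) v
    simp_rw [h1]
    rw [intervalIntegral.integral_finsetSum]
    · rw [Finset.mul_sum]
      apply Finset.sum_congr rfl
      intro m _
      rw [intervalIntegral.integral_const_mul]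
      ring
    · intro m _
      exact ((continuous_const.mul (hcont m)).intervalIntegrable _ _)
  -- the Gaussian mean value
  set μ := multivariateGaussian (0 : EuclideanSpace ℝ (Fin K)) (S - σ ^ 2 • (1 : Matrix (Fin K) (Fin K) ℝ)) with hμ
  have e2 : ∑ m, a m * cexp ((-(∑ i, ∑ k, q (m i) * S i k * q (m k)) / 2 : ℝ) : ℂ) =
      ∫ x : EuclideanSpace ℝ (Fin K), ((∏ i, G (x i - v i) : ℝ) : ℂ) ∂μ := by
    have h1 : ∀ x : EuclideanSpace ℝ (Fin K), ((∏ i, G (x i - v i) : ℝ) : ℂ) =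
        ∑ m : Fin K → Fin N, (a m * ((Real.exp (-(σ ^ 2 * ∑ i, q (m i) ^ 2) / 2) : ℝ) : ℂ)) *
          cexp (I * ((∑ i, q (m i) * x i : ℝ) : ℂ)) := by
      intro x
      rw [expand_prod K N (fun m => c m * ((Real.exp (-(σ ^ 2 * q m ^ 2) / 2) : ℝ) : ℂ)) q G hG (fun i => x i) v]
      apply Finset.sum_congr rfl
      intro m _
      congr 1
      simp only [ha]
      have h2 : Real.exp (-(σ ^ 2 * ∑ i, q (m i) ^ 2) / 2) = ∏ i, Real.exp (-(σ ^ 2 * q (m i) ^ 2) / 2) := by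
        rw [← Real.exp_sum]
        congr 1
        rw [Finset.mul_sum, ← Finset.sum_neg_distrib, Finset.sum_div]
      rw [h2, Complex.ofReal_prod, ← Finset.prod_mul_distrib]
      apply Finset.prod_congr rfl
      intro i _
      ring
    simp_rw [h1]
    rw [integral_finsetSum]
    · apply Finset.sum_congr rfl
      intro m _
      rw [integral_const_mul, gauss_char K _ hS (fun i => q (m i)), mul_assoc]
      congr 1
      rw [Complex.ofReal_exp, ← Complex.exp_add]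
      congr 1
      rw [← Complex.ofReal_add]
      congr 1
      have h3 : ∑ i, ∑ k, q (m i) * (S - σ ^ 2 • (1 : Matrix (Fin K) (Fin K) ℝ)) i k * q (m k) =
          ∑ i, ∑ k, q (m i) * S i k * q (m k) - σ ^ 2 * ∑ i, q (m i) ^ 2 := by
        rw [Finset.mul_sum, ← Finset.sum_sub_distrib]
        apply Finset.sum_congr rfl
        intro i _
        have h4 : σ ^ 2 * q (m i) ^ 2 = ∑ k, q (m i) * (σ ^ 2 • (1 : Matrix (Fin K) (Fin K) ℝ)) i k * q (m k) := by
          rw [Finset.sum_eq_single i]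
          · simp
            ring
          · intro k _ hk
            simp [Matrix.one_apply_ne' hk]
          · intro h
            exact absurd (Finset.mem_univ i) h
        rw [h4, ← Finset.sum_sub_distrib]
        apply Finset.sum_congr rfl
        intro k _
        rw [Matrix.sub_apply]
        ring
      rw [h3]
      ring
    · intro m _
      apply Integrable.const_mul
      have hc : Continuous (fun x : EuclideanSpace ℝ (Fin K) => cexp (I * ((∑ i, q (m i) * x i : ℝ) : ℂ))) := by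
        apply Complex.continuous_exp.comp
        apply continuous_const.mul
        apply Complex.continuous_ofReal.comp
        apply continuous_finsetSum
        intro i _
        exact continuous_const.mul (by fun_prop)
      refine Integrable.of_bound hc.aestronglyMeasurable 1 ?_
      filter_upwards with x
      have h : I * ((∑ i, q (m i) * x i : ℝ) : ℂ) = ((∑ i, q (m i) * x i : ℝ) : ℂ) * I := mul_comm _ _
      rw [h, Complex.norm_exp_ofReal_mul_I]
  have hQ0 : 0 ≤ Q := (abs_nonneg _).trans (hQ 0)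
  have e3 : ‖∑ m, a m * cexp ((-(∑ i, ∑ k, q (m i) * S i k * q (m k)) / 2 : ℝ) : ℂ)‖ ≤ Q ^ K := by
    rw [e2]
    have h1 : ‖∫ x : EuclideanSpace ℝ (Fin K), ((∏ i, G (x i - v i) : ℝ) : ℂ) ∂μ‖ ≤ Q ^ K * μ.real Set.univ := by
      apply norm_integral_le_of_norm_le_const
      filter_upwards with x
      rw [Complex.norm_real, Real.norm_eq_abs, Finset.abs_prod]
      calc ∏ i, |G (x i - v i)| ≤ ∏ _i : Fin K, Q := Finset.prod_le_prod (fun i _ => abs_nonneg _) (fun i _ => hQ _)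
        _ = Q ^ K := by rw [Finset.prod_const, Finset.card_univ, Fintype.card_fin]
    rw [probReal_univ, mul_one] at h1
    exact h1
  have e4 : ‖∑ m, a m * (((1 / T : ℝ) : ℂ) * (∫ t in T..(2 * T), cexp (I * ((∑ i, q (m i) * Y t i : ℝ) : ℂ)))) -
      ∑ m, a m * cexp ((-(∑ i, ∑ k, q (m i) * S i k * q (m k)) / 2 : ℝ) : ℂ)‖ ≤ (∑ m, ‖c m‖) ^ K * err := by
    rw [← Finset.sum_sub_distrib, ← sum_prod_norm, Finset.sum_mul]
    refine (norm_sum_le _ _).trans ?_
    apply Finset.sum_le_sum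
    intro m _
    rw [← mul_sub, norm_mul, hanorm]
    exact mul_le_mul_of_nonneg_left (hch m) (Finset.prod_nonneg (fun i _ => norm_nonneg _))
  have e5 : 1 / T * (∫ t in T..(2 * T), ∏ i, F (Y t i - v i)) ≤
      ‖((1 / T * (∫ t in T..(2 * T), ∏ i, F (Y t i - v i)) : ℝ) : ℂ)‖ := by
    rw [Complex.norm_real]
    exact Real.le_norm_self _
  refine e5.trans ?_
  rw [e1]
  calc ‖∑ m, a m * (((1 / T : ℝ) : ℂ) * (∫ t in T..(2 * T), cexp (I * ((∑ i, q (m i) * Y t i : ℝ) : ℂ))))‖ =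
        ‖(∑ m, a m * cexp ((-(∑ i, ∑ k, q (m i) * S i k * q (m k)) / 2 : ℝ) : ℂ)) +
          (∑ m, a m * (((1 / T : ℝ) : ℂ) * (∫ t in T..(2 * T), cexp (I * ((∑ i, q (m i) * Y t i : ℝ) : ℂ)))) -
          ∑ m, a m * cexp ((-(∑ i, ∑ k, q (m i) * S i k * q (m k)) / 2 : ℝ) : ℂ))‖ := by
        congr 1
        ring
    _ ≤ _ := (norm_add_le _ _).trans (add_le_add e3 e4)

end Pool.Agent.P8H78.EN
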