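import Pool.Agent.P8H60.EN.Stm
import Pool.Agent.P8H78.EN.ChbCore

/-!
Project EN, part CHB.
-/

set_option autoImplicit false

namespace Pool.Agent.P8H78.EN

open Pool.Agent.P8H60.EN

theorem t_CHB : S_CHB := by
  intro K N c q F G σ Q err T Y S hT herr hY hF hG hQ hS hch v
  exact chb_core K N c q F G σ Q err T Y S hT herr hY hF hG hQ hS hch v

end Pool.Agent.P8H78.EN
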